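import Pool.Agent.W945.Sig.Red

/-!
# Loading networks with two sigmoid hidden nodes is NP-hard (a conjecture of Sontag)

The architecture `N_k` has `k` Boolean inputs, two hidden nodes, which are standard sigmoids
`σ(z) = 1 / (1 + exp (-z))`, and an output node which is a perceptron; all weights are arbitrary
real numbers. Its loading problem (`Loadable`) is NP-hard under polynomial-time many-one
reductions, even for instances with at most `k` labelled points.

The proof: reduction from monotone not-all-equal 3-satisfiability with six inputs for every
occurrence of a variable. With `X = exp (-u)`, `Y = exp (-v)` for the inputs `u, v` of the hidden
nodes, a point is labelled `1` if and only if `α + β X + γ Y + δ X Y ≥ 0`, and the form of the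
network excludes the sign patterns for which this is an exclusive or of two thresholds. After
replacing `X` or `Y` by its inverse, the region is `(X - g) (Y - b) ≤ κ` with `κ > max 0 (g b)`.
Its complement has two arms. The labels of the points of a variable force, whatever the signs of
`g` and `b` are, that the two literals of the variable lie in different arms, and then the points
of a clause and of its complement exclude that all its literals lie in the same arm. The case
of different signs of `g` and `b`, where neither the region nor its complement is
convex in logarithmic coordinates, is the difficult one (`lemR`, `chain`).

Everything on polynomial time, NP and encodings comes from the starting library `Pool.Agent.NPC`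
(polynomial time is `Turing.TM2ComputableInPolyTime` of Mathlib), the hardness of monotone
not-all-equal satisfiability from `Pool.Agent.H648R3.WC.Nae`.
-/

set_option autoImplicit false

namespace Pool.Agent.Results.MP_fae5c8_lc.SigmoidLoadingNPHard

open Pool.Agent.NPC Pool.Agent.W945.Sig

/-- The loading problem for the architecture with `k` Boolean inputs, two standard-sigmoid hidden
nodes and a perceptron as output node is NP-hard; moreover every language in NP can be reduced to
it in polynomial time such that all instances produced have at most `k` labelled points. -/
theorem result : NPHardP Loadable ∧
    ∀ L : Set (List Bool), InNP L → ∃ f : List Bool → Instance,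
      PolyTime (fun x => bits (f x)) ∧ (∀ x, Few (f x)) ∧ ∀ x, x ∈ L ↔ Loadable (f x) := by
  refine ⟨hard_loadable, fun L hL => ?_⟩
  obtain ⟨f, hf, h1, h2⟩ := hardPr_loadable L hL
  exact ⟨f, PC.toPolyTime hf, h1, h2⟩

end Pool.Agent.Results.MP_fae5c8_lc.SigmoidLoadingNPHard
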